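import Pool.Agent.H80.LD.Defs

/-!
# Auxiliary lemmas for the rows LAW and SSP of the board `ldp_modules`
-/

set_option autoImplicit false

open MeasureTheory Filter Topology
open scoped ENNReal

namespace Pool.Agent.H42.LD

/-- completing the square -/
theorem one_dim (g B s : ℝ) (hg : 0 < g) :
    B * s ^ 2 - g * s ^ 4 ≤ (B + 1) ^ 2 / (4 * g) - s ^ 2 := by
  have h1 : 0 ≤ g * (s ^ 2 - (B + 1) / (2 * g)) ^ 2 := by positivity
  have h2 : g * (s ^ 2 - (B + 1) / (2 * g)) ^ 2 =
      g * s ^ 4 - (B + 1) * s ^ 2 + (B + 1) ^ 2 / (4 * g) := by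
    field_simp
    ring
  rw [h2] at h1
  linarith

/-- a Gaussian bound gives integrability -/
theorem integrable_of_bound {ι : Type} [Fintype ι] (f : (ι → ℝ) → ℝ) (hf : Continuous f)
    (K : ι → ℝ) (h : ∀ φ, f φ ≤ ∑ x, (K x - φ x ^ 2)) :
    Integrable (fun φ : ι → ℝ => Real.exp (f φ)) := by
  have h1 : Integrable (fun φ : ι → ℝ => ∏ x, Real.exp (K x - φ x ^ 2)) := by
    apply Integrable.fintype_prod (f := fun (x : ι) (s : ℝ) => Real.exp (K x - s ^ 2))
    intro x
    have h2 := (integrable_exp_neg_mul_sq (b := 1) one_pos).const_mul (Real.exp (K x))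
    refine h2.congr (Eventually.of_forall fun s => ?_)
    show Real.exp (K x) * Real.exp (-1 * s ^ 2) = Real.exp (K x - s ^ 2)
    rw [← Real.exp_add]
    congr 1
    ring
  refine h1.mono' (Real.continuous_exp.comp hf).aestronglyMeasurable
    (Eventually.of_forall fun φ => ?_)
  rw [Real.norm_eq_abs, abs_of_pos (Real.exp_pos _), ← Real.exp_sum]
  exact Real.exp_le_exp.2 (h φ)

end Pool.Agent.H42.LD
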