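import Pool.Agent.H80.LD.Targets
import Pool.Agent.H42.LD.Prep

/-!
# Row LAW of the board `ldp_modules`: the Gibbs measure
-/

set_option autoImplicit false

open MeasureTheory Filter Topology
open scoped ENNReal

namespace Pool.Agent.H42.LD

open Pool.Agent.H80.LD
open Pool.Agent.H43.DPC (V S SD)

variable {d : ℕ} {e : V d}

theorem H_continuous (A : Sys d e) : Continuous A.H := by
  unfold Sys.H
  fun_prop

theorem H_bound (A : Sys d e) (C : ℝ) (φ : Fin A.N → ℝ) :
    C * ∑ x, φ x ^ 2 - A.H φ ≤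
      ∑ x, ((C - A.b x + (∑ y, ∑ z, A.J y z) / 2 + 1) ^ 2 / (4 * A.g x) - φ x ^ 2) := by
  set M : ℝ := ∑ y, ∑ z, A.J y z with hM
  have h1 : ∑ x, ∑ y, A.J x y * φ x * φ y ≤ M * ∑ x, φ x ^ 2 := by
    rw [hM, Finset.sum_mul]
    refine Finset.sum_le_sum fun x _ => ?_
    rw [Finset.sum_mul]
    refine Finset.sum_le_sum fun y _ => ?_
    have h2 : φ x ^ 2 ≤ ∑ z, φ z ^ 2 :=
      Finset.single_le_sum (f := fun z => φ z ^ 2) (fun z _ => sq_nonneg _) (Finset.mem_univ x)
    have h3 : φ y ^ 2 ≤ ∑ z, φ z ^ 2 :=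
      Finset.single_le_sum (f := fun z => φ z ^ 2) (fun z _ => sq_nonneg _) (Finset.mem_univ y)
    have h4 : φ x * φ y ≤ ∑ z, φ z ^ 2 := by nlinarith [sq_nonneg (φ x - φ y)]
    rw [mul_assoc]
    exact mul_le_mul_of_nonneg_left h4 (A.J_nonneg x y)
  have h5 : C * ∑ x, φ x ^ 2 - A.H φ ≤
      ∑ x, ((C - A.b x + M / 2) * φ x ^ 2 - A.g x * φ x ^ 4) := by
    unfold Sys.H
    have e1 : ∑ x, ((C - A.b x + M / 2) * φ x ^ 2 - A.g x * φ x ^ 4) =
        C * ∑ x, φ x ^ 2 - ∑ x, (A.g x * φ x ^ 4 + A.b x * φ x ^ 2) +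
          1 / 2 * (M * ∑ x, φ x ^ 2) := by
      rw [Finset.mul_sum, Finset.mul_sum, Finset.mul_sum, ← Finset.sum_sub_distrib,
        ← Finset.sum_add_distrib]
      refine Finset.sum_congr rfl fun x _ => ?_
      ring
    rw [e1]
    linarith
  refine h5.trans (Finset.sum_le_sum fun x _ => ?_)
  exact one_dim (A.g x) (C - A.b x + M / 2) (φ x) (A.g_pos x)

theorem law_integrable (A : Sys d e) (C : ℝ) :
    Integrable (fun φ : Fin A.N → ℝ => Real.exp (C * ∑ x, φ x ^ 2 - A.H φ)) := by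
  apply integrable_of_bound _ _ _ (H_bound A C)
  have := H_continuous A
  fun_prop

theorem pf_LAW : T_LAW := by
  intro d e A
  have hHc := H_continuous A
  have hint := law_integrable A
  have h0 : Integrable (fun φ : Fin A.N → ℝ => Real.exp (-A.H φ)) := by
    have := hint 0
    simpa using this
  have hZ : 0 < ∫ φ : Fin A.N → ℝ, Real.exp (-A.H φ) := integral_exp_pos h0
  set Z : ℝ := ∫ φ : Fin A.N → ℝ, Real.exp (-A.H φ) with hZd
  have hL : ∫⁻ φ : Fin A.N → ℝ, ENNReal.ofReal (Real.exp (-A.H φ)) = ENNReal.ofReal Z :=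
    (ofReal_integral_eq_lintegral_ofReal h0
      (Eventually.of_forall fun φ => (Real.exp_pos _).le)).symm
  have hlaw : A.law = (ENNReal.ofReal Z)⁻¹ •
      volume.withDensity (fun φ : Fin A.N → ℝ => ENNReal.ofReal (Real.exp (-A.H φ))) := by
    unfold Sys.law
    rw [hL]
  have hZ0 : ENNReal.ofReal Z ≠ 0 := by
    rw [Ne, ENNReal.ofReal_eq_zero, not_le]
    exact hZ
  have hmeas : Measurable (fun φ : Fin A.N → ℝ => ENNReal.ofReal (Real.exp (-A.H φ))) := by
    fun_prop
  have hlt : ∀ᵐ φ : Fin A.N → ℝ, ENNReal.ofReal (Real.exp (-A.H φ)) < ∞ :=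
    Eventually.of_forall fun φ => ENNReal.ofReal_lt_top
  have hint' : ∀ F : (Fin A.N → ℝ) → ℝ,
      ∫ φ, F φ ∂A.law = (∫ φ, F φ * Real.exp (-A.H φ)) / Z := by
    intro F
    rw [hlaw, integral_smul_measure, integral_withDensity_eq_integral_toReal_smul hmeas hlt,
      ENNReal.toReal_inv, ENNReal.toReal_ofReal hZ.le, smul_eq_mul, mul_comm, div_eq_mul_inv]
    congr 1
    refine integral_congr_ae (Eventually.of_forall fun φ => ?_)
    show (ENNReal.ofReal (Real.exp (-A.H φ))).toReal • F φ = F φ * Real.exp (-A.H φ)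
    rw [ENNReal.toReal_ofReal (Real.exp_pos _).le, smul_eq_mul, mul_comm]
  refine ⟨hint, hZ, ⟨?_⟩, hint', ?_⟩
  · rw [hlaw, Measure.smul_apply, withDensity_apply _ MeasurableSet.univ,
      Measure.restrict_univ, hL, smul_eq_mul, ENNReal.inv_mul_cancel hZ0 ENNReal.ofReal_ne_top]
  · intro F C hF hFb
    rw [hlaw]
    apply Integrable.smul_measure _ (ENNReal.inv_ne_top.2 hZ0)
    rw [integrable_withDensity_iff_integrable_smul' hmeas hlt]
    refine ((hint C).const_mul C).mono' ?_ (Eventually.of_forall fun φ => ?_)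
    · have : Continuous (fun φ : Fin A.N → ℝ =>
          (ENNReal.ofReal (Real.exp (-A.H φ))).toReal • F φ) := by
        have e1 : (fun φ : Fin A.N → ℝ => (ENNReal.ofReal (Real.exp (-A.H φ))).toReal • F φ) =
            fun φ => Real.exp (-A.H φ) * F φ := by
          funext φ
          rw [ENNReal.toReal_ofReal (Real.exp_pos _).le, smul_eq_mul]
        rw [e1]
        fun_prop
      exact this.aestronglyMeasurable
    · rw [ENNReal.toReal_ofReal (Real.exp_pos _).le, smul_eq_mul, Real.norm_eq_abs, abs_mul,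
        abs_of_pos (Real.exp_pos _)]
      have e1 : C * Real.exp (C * ∑ x, φ x ^ 2 - A.H φ) =
          Real.exp (-A.H φ) * (C * Real.exp (C * ∑ x, φ x ^ 2)) := by
        rw [sub_eq_add_neg, Real.exp_add]
        ring
      rw [e1]
      exact mul_le_mul_of_nonneg_left (hFb φ) (Real.exp_pos _).le

end Pool.Agent.H42.LD
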