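import Pool.Agent.H80.LD.Targets
import Pool.Agent.H42.LD.Prep

/-!
# Row SSP of the board `ldp_modules`: four replicas at one site

No series: the integral is symmetrised over sign changes of the four linear forms, and the
symmetrised integrand is nonnegative.
-/

set_option autoImplicit false

open MeasureTheory Filter Topology
open scoped ENNReal

namespace Pool.Agent.H42.LD

open Pool.Agent.H80.LD

/-- linear involutions preserve the volume -/
theorem inv_map (f : (Fin 4 → ℝ) →ₗ[ℝ] (Fin 4 → ℝ)) (hf : ∀ y, f (f y) = y) :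
    Measure.map f (volume : Measure (Fin 4 → ℝ)) = volume := by
  have h1 : LinearMap.det f * LinearMap.det f = 1 := by
    rw [← LinearMap.det_comp]
    have : f ∘ₗ f = LinearMap.id := LinearMap.ext hf
    rw [this, LinearMap.det_id]
  have h2 : |LinearMap.det f| = 1 := by
    have h3 : |LinearMap.det f| * |LinearMap.det f| = 1 := by
      rw [← abs_mul, h1, abs_one]
    nlinarith [abs_nonneg (LinearMap.det f)]
  have h0 : LinearMap.det f ≠ 0 := by
    intro h
    rw [h, abs_zero] at h2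
    exact zero_ne_one h2
  rw [Measure.map_linearMap_addHaar_eq_smul_addHaar volume h0, abs_inv, h2]
  simp

/-- linear involutions preserve the integral -/
theorem inv_int (f : (Fin 4 → ℝ) →ₗ[ℝ] (Fin 4 → ℝ)) (hf : ∀ y, f (f y) = y)
    (F : (Fin 4 → ℝ) → ℝ) (hF : Continuous F) : ∫ y, F (f y) = ∫ y, F y := by
  have h4 := inv_map f hf
  have hfc : Continuous f := LinearMap.continuous_of_finiteDimensional f
  have h5 := integral_map (μ := (volume : Measure (Fin 4 → ℝ))) hfc.aemeasurable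
    (f := F) hF.aestronglyMeasurable
  rw [h4] at h5
  exact h5.symm

/-- the exchange of (0,1) and (2,3) -/
def f1 : (Fin 4 → ℝ) →ₗ[ℝ] (Fin 4 → ℝ) where
  toFun y := ![y 1, y 0, y 3, y 2]
  map_add' x y := by ext i; fin_cases i <;> simp
  map_smul' c y := by ext i; fin_cases i <;> simp

/-- the exchange of (0,2) and (1,3) -/
def f2 : (Fin 4 → ℝ) →ₗ[ℝ] (Fin 4 → ℝ) where
  toFun y := ![y 2, y 3, y 0, y 1]
  map_add' x y := by ext i; fin_cases i <;> simp
  map_smul' c y := by ext i; fin_cases i <;> simp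

/-- the change of all signs -/
def f3 : (Fin 4 → ℝ) →ₗ[ℝ] (Fin 4 → ℝ) where
  toFun y := ![-y 0, -y 1, -y 2, -y 3]
  map_add' x y := by ext i; fin_cases i <;> simp <;> ring
  map_smul' c y := by ext i; fin_cases i <;> simp

/-- the change of the sign of `de` -/
noncomputable def f4 : (Fin 4 → ℝ) →ₗ[ℝ] (Fin 4 → ℝ) where
  toFun y := ![(y 0 + y 1 + y 2 - y 3) / 2, (y 0 + y 1 - y 2 + y 3) / 2,
    (y 0 - y 1 + y 2 + y 3) / 2, (-y 0 + y 1 + y 2 + y 3) / 2]
  map_add' x y := by ext i; fin_cases i <;> simp <;> ring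
  map_smul' c y := by ext i; fin_cases i <;> simp <;> ring

theorem f1_inv (y : Fin 4 → ℝ) : f1 (f1 y) = y := by
  ext i; fin_cases i <;> simp [f1]

theorem f2_inv (y : Fin 4 → ℝ) : f2 (f2 y) = y := by
  ext i; fin_cases i <;> simp [f2]

theorem f3_inv (y : Fin 4 → ℝ) : f3 (f3 y) = y := by
  ext i; fin_cases i <;> simp [f3]

theorem f4_inv (y : Fin 4 → ℝ) : f4 (f4 y) = y := by
  ext i; fin_cases i <;> simp [f4] <;> ring

theorem f1_ap (y : Fin 4 → ℝ) : al (f1 y) = al y ∧ be (f1 y) = be y ∧ ga (f1 y) = -ga y ∧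
    de (f1 y) = -de y := by
  refine ⟨?_, ?_, ?_, ?_⟩ <;> simp [f1, al, be, ga, de] <;> ring

theorem f2_ap (y : Fin 4 → ℝ) : al (f2 y) = al y ∧ be (f2 y) = -be y ∧ ga (f2 y) = ga y ∧
    de (f2 y) = -de y := by
  refine ⟨?_, ?_, ?_, ?_⟩ <;> simp [f2, al, be, ga, de] <;> ring

theorem f3_ap (y : Fin 4 → ℝ) : al (f3 y) = -al y ∧ be (f3 y) = -be y ∧ ga (f3 y) = -ga y ∧
    de (f3 y) = -de y := by
  refine ⟨?_, ?_, ?_, ?_⟩ <;> simp [f3, al, be, ga, de] <;> ring

theorem f4_ap (y : Fin 4 → ℝ) : al (f4 y) = al y ∧ be (f4 y) = be y ∧ ga (f4 y) = ga y ∧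
    de (f4 y) = -de y := by
  refine ⟨?_, ?_, ?_, ?_⟩ <;> simp [f4, al, be, ga, de] <;> ring

/-- the part of the energy which is even in each of the four forms -/
noncomputable def ev (g b : ℝ) (y : Fin 4 → ℝ) : ℝ :=
  g * (1 / 4 * (al y ^ 4 + be y ^ 4 + ga y ^ 4 + de y ^ 4) + 3 / 2 * (al y ^ 2 * be y ^ 2 +
    al y ^ 2 * ga y ^ 2 + al y ^ 2 * de y ^ 2 + be y ^ 2 * ga y ^ 2 + be y ^ 2 * de y ^ 2 +
    ga y ^ 2 * de y ^ 2)) + b * (al y ^ 2 + be y ^ 2 + ga y ^ 2 + de y ^ 2)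

theorem energy (g b : ℝ) (y : Fin 4 → ℝ) :
    ∑ i, (g * y i ^ 4 + b * y i ^ 2) = ev g b y - 6 * g * (al y * be y * ga y * de y) := by
  simp only [Fin.sum_univ_four, ev, al, be, ga, de]
  ring

theorem sq_sum (y : Fin 4 → ℝ) : ∑ i, y i ^ 2 = al y ^ 2 + be y ^ 2 + ga y ^ 2 + de y ^ 2 := by
  simp only [Fin.sum_univ_four, al, be, ga, de]
  ring

theorem pow_le_exp (x s : ℝ) (n : ℕ) (h : x ^ 2 ≤ s) : |x| ^ n ≤ Real.exp (n * (1 + s)) := by
  have h1 : |x| ≤ 1 + s := by
    have h2 : |x| ^ 2 ≤ s := by rw [sq_abs]; exact h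
    nlinarith [sq_nonneg (|x| - 1), abs_nonneg x]
  have h2 : |x| ≤ Real.exp (1 + s) := by
    have := Real.add_one_le_exp (1 + s)
    linarith
  calc |x| ^ n ≤ (Real.exp (1 + s)) ^ n := pow_le_pow_left₀ (abs_nonneg x) h2 n
    _ = Real.exp (n * (1 + s)) := (Real.exp_nat_mul _ _).symm

theorem al_cont : Continuous al := by unfold al; fun_prop
theorem be_cont : Continuous be := by unfold be; fun_prop
theorem ga_cont : Continuous ga := by unfold ga; fun_prop
theorem de_cont : Continuous de := by unfold de; fun_prop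

theorem ssp_int (g b : ℝ) (hg : 0 < g) (C : ℝ) : Integrable (fun y : Fin 4 → ℝ =>
    Real.exp (C * ∑ i, y i ^ 2 - ∑ i, (g * y i ^ 4 + b * y i ^ 2))) := by
  apply integrable_of_bound _ (by fun_prop) (fun _ => (C - b + 1) ^ 2 / (4 * g))
  intro y
  rw [Finset.mul_sum, ← Finset.sum_sub_distrib]
  refine Finset.sum_le_sum fun i _ => ?_
  have h := one_dim g (C - b) (y i) hg
  have e : C * y i ^ 2 - (g * y i ^ 4 + b * y i ^ 2) = (C - b) * y i ^ 2 - g * y i ^ 4 := by ring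
  rw [e]
  exact h

/-- the integrand -/
noncomputable def FF (g b : ℝ) (p q r s : ℕ) (y : Fin 4 → ℝ) : ℝ :=
  al y ^ p * be y ^ q * ga y ^ r * de y ^ s * Real.exp (-∑ i, (g * y i ^ 4 + b * y i ^ 2))

theorem FF_cont (g b : ℝ) (p q r s : ℕ) : Continuous (FF g b p q r s) := by
  have h1 := al_cont
  have h2 := be_cont
  have h3 := ga_cont
  have h4 := de_cont
  unfold FF
  fun_prop

theorem FF_int (g b : ℝ) (hg : 0 < g) (p q r s : ℕ) : Integrable (FF g b p q r s) := by
  have h1 := (ssp_int g b hg (p + q + r + s : ℕ)).const_mul (Real.exp ((p + q + r + s : ℕ) : ℝ))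
  refine h1.mono' (FF_cont g b p q r s).aestronglyMeasurable (Eventually.of_forall fun y => ?_)
  unfold FF
  rw [Real.norm_eq_abs, abs_mul, abs_mul, abs_mul, abs_mul, abs_pow, abs_pow, abs_pow, abs_pow,
    abs_of_pos (Real.exp_pos _), sub_eq_add_neg, Real.exp_add, ← mul_assoc]
  apply mul_le_mul_of_nonneg_right _ (Real.exp_pos _).le
  have hs := sq_sum y
  have a1 := pow_le_exp (al y) (∑ i, y i ^ 2) p
    (by rw [hs]; nlinarith [sq_nonneg (be y), sq_nonneg (ga y), sq_nonneg (de y)])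
  have a2 := pow_le_exp (be y) (∑ i, y i ^ 2) q
    (by rw [hs]; nlinarith [sq_nonneg (al y), sq_nonneg (ga y), sq_nonneg (de y)])
  have a3 := pow_le_exp (ga y) (∑ i, y i ^ 2) r
    (by rw [hs]; nlinarith [sq_nonneg (al y), sq_nonneg (be y), sq_nonneg (de y)])
  have a4 := pow_le_exp (de y) (∑ i, y i ^ 2) s
    (by rw [hs]; nlinarith [sq_nonneg (al y), sq_nonneg (be y), sq_nonneg (ga y)])
  have e1 : Real.exp ((p + q + r + s : ℕ) : ℝ) *
      Real.exp ((p + q + r + s : ℕ) * ∑ i, y i ^ 2) =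
      Real.exp (p * (1 + ∑ i, y i ^ 2)) * Real.exp (q * (1 + ∑ i, y i ^ 2)) *
        Real.exp (r * (1 + ∑ i, y i ^ 2)) * Real.exp (s * (1 + ∑ i, y i ^ 2)) := by
    rw [← Real.exp_add, ← Real.exp_add, ← Real.exp_add, ← Real.exp_add]
    congr 1
    push_cast
    ring
  rw [e1]
  gcongr

theorem en1 (g b : ℝ) (y : Fin 4 → ℝ) : ∑ i, (g * f1 y i ^ 4 + b * f1 y i ^ 2) =
    ∑ i, (g * y i ^ 4 + b * y i ^ 2) := by
  simp only [Fin.sum_univ_four]
  simp [f1]
  ring

theorem en2 (g b : ℝ) (y : Fin 4 → ℝ) : ∑ i, (g * f2 y i ^ 4 + b * f2 y i ^ 2) =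
    ∑ i, (g * y i ^ 4 + b * y i ^ 2) := by
  simp only [Fin.sum_univ_four]
  simp [f2]
  ring

theorem en3 (g b : ℝ) (y : Fin 4 → ℝ) : ∑ i, (g * f3 y i ^ 4 + b * f3 y i ^ 2) =
    ∑ i, (g * y i ^ 4 + b * y i ^ 2) := by
  simp only [Fin.sum_univ_four]
  simp [f3]
  ring

theorem FF1 (g b : ℝ) (p q r s : ℕ) (y : Fin 4 → ℝ) :
    FF g b p q r s (f1 y) = (-1) ^ (r + s) * FF g b p q r s y := by
  unfold FF
  obtain ⟨h1, h2, h3, h4⟩ := f1_ap y
  rw [en1, h1, h2, h3, h4, neg_pow (ga y), neg_pow (de y), pow_add]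
  ring

theorem FF2 (g b : ℝ) (p q r s : ℕ) (y : Fin 4 → ℝ) :
    FF g b p q r s (f2 y) = (-1) ^ (q + s) * FF g b p q r s y := by
  unfold FF
  obtain ⟨h1, h2, h3, h4⟩ := f2_ap y
  rw [en2, h1, h2, h3, h4, neg_pow (be y), neg_pow (de y), pow_add]
  ring

theorem FF3 (g b : ℝ) (p q r s : ℕ) (y : Fin 4 → ℝ) :
    FF g b p q r s (f3 y) = (-1) ^ (p + q + r + s) * FF g b p q r s y := by
  unfold FF
  obtain ⟨h1, h2, h3, h4⟩ := f3_ap y
  rw [en3, h1, h2, h3, h4, neg_pow (al y), neg_pow (be y), neg_pow (ga y), neg_pow (de y),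
    pow_add, pow_add, pow_add]
  ring

theorem zero_of_odd (F : (Fin 4 → ℝ) → ℝ) (hF : Continuous F)
    (f : (Fin 4 → ℝ) →ₗ[ℝ] (Fin 4 → ℝ)) (hf : ∀ y, f (f y) = y) (n : ℕ) (hn : Odd n)
    (h : ∀ y, F (f y) = (-1) ^ n * F y) : ∫ y, F y = 0 := by
  have h1 := inv_int f hf F hF
  simp only [h, hn.neg_one_pow] at h1
  rw [integral_const_mul] at h1
  linarith

theorem FF4 (g b : ℝ) (hg : 0 < g) (p q r s : ℕ) (y : Fin 4 → ℝ) :
    0 ≤ FF g b (2 * p + 1) (2 * q + 1) (2 * r + 1) (2 * s + 1) y +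
      FF g b (2 * p + 1) (2 * q + 1) (2 * r + 1) (2 * s + 1) (f4 y) := by
  unfold FF
  obtain ⟨h1, h2, h3, h4⟩ := f4_ap y
  have e0 : ev g b (f4 y) = ev g b y := by
    unfold ev
    rw [h1, h2, h3, h4]
    ring
  rw [energy, energy, e0, h1, h2, h3, h4]
  set t : ℝ := al y * be y * ga y * de y with ht
  have e1 : al y ^ (2 * p + 1) * be y ^ (2 * q + 1) * ga y ^ (2 * r + 1) * de y ^ (2 * s + 1) *
      Real.exp (-(ev g b y - 6 * g * t)) + al y ^ (2 * p + 1) * be y ^ (2 * q + 1) *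
      ga y ^ (2 * r + 1) * (-de y) ^ (2 * s + 1) *
      Real.exp (-(ev g b y - 6 * g * (al y * be y * ga y * -de y))) =
      (al y ^ p * be y ^ q * ga y ^ r * de y ^ s) ^ 2 * Real.exp (-ev g b y) *
        (t * (Real.exp (6 * g * t) - Real.exp (-(6 * g * t)))) := by
    have e2 : Real.exp (-(ev g b y - 6 * g * t)) =
        Real.exp (-ev g b y) * Real.exp (6 * g * t) := by
      rw [← Real.exp_add]
      congr 1
      ring
    have e3 : Real.exp (-(ev g b y - 6 * g * (al y * be y * ga y * -de y))) =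
        Real.exp (-ev g b y) * Real.exp (-(6 * g * t)) := by
      rw [← Real.exp_add, ht]
      congr 1
      ring
    rw [e2, e3, Odd.neg_pow ⟨s, rfl⟩, ht]
    ring
  rw [e1]
  apply mul_nonneg (by positivity)
  rcases le_total 0 t with h | h
  · apply mul_nonneg h
    have : Real.exp (-(6 * g * t)) ≤ Real.exp (6 * g * t) := by
      apply Real.exp_le_exp.2
      have : 0 ≤ 6 * g * t := by positivity
      linarith
    linarith
  · apply mul_nonneg_of_nonpos_of_nonpos h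
    have : Real.exp (6 * g * t) ≤ Real.exp (-(6 * g * t)) := by
      apply Real.exp_le_exp.2
      have : 6 * g * t ≤ 0 := mul_nonpos_of_nonneg_of_nonpos (by positivity) h
      linarith
    linarith

theorem pf_SSP : T_SSP := by
  intro g b hg
  refine ⟨ssp_int g b hg, fun p q r s => ?_⟩
  show 0 ≤ ∫ y, FF g b p q r s y
  have hc := FF_cont g b p q r s
  rcases Nat.even_or_odd (r + s) with h1 | h1
  swap
  · rw [zero_of_odd _ hc f1 f1_inv (r + s) h1 (FF1 g b p q r s)]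
  rcases Nat.even_or_odd (q + s) with h2 | h2
  swap
  · rw [zero_of_odd _ hc f2 f2_inv (q + s) h2 (FF2 g b p q r s)]
  rcases Nat.even_or_odd (p + q + r + s) with h3 | h3
  swap
  · rw [zero_of_odd _ hc f3 f3_inv (p + q + r + s) h3 (FF3 g b p q r s)]
  rcases Nat.even_or_odd s with hs | hs
  · have hr : Even r := (Nat.even_add.1 h1).2 hs
    have hq : Even q := (Nat.even_add.1 h2).2 hs
    have hp : Even p := by
      have h4 := (Nat.even_add.1 h3).2 hs
      have h5 := (Nat.even_add.1 h4).2 hr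
      exact (Nat.even_add.1 h5).2 hq
    apply integral_nonneg
    intro y
    unfold FF
    have := hp.pow_nonneg (al y)
    have := hq.pow_nonneg (be y)
    have := hr.pow_nonneg (ga y)
    have := hs.pow_nonneg (de y)
    positivity
  · have hns : ¬ Even s := Nat.not_even_iff_odd.2 hs
    have hr : Odd r := Nat.not_even_iff_odd.1 fun h => hns ((Nat.even_add.1 h1).1 h)
    have hq : Odd q := Nat.not_even_iff_odd.1 fun h => hns ((Nat.even_add.1 h2).1 h)
    have hp : Odd p := by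
      apply Nat.not_even_iff_odd.1
      intro h
      apply hns
      apply (Nat.even_add.1 h3).1
      rw [Nat.even_add, Nat.even_add]
      have := Nat.not_even_iff_odd.2 hq
      have := Nat.not_even_iff_odd.2 hr
      tauto
    obtain ⟨p', rfl⟩ := hp
    obtain ⟨q', rfl⟩ := hq
    obtain ⟨r', rfl⟩ := hr
    obtain ⟨s', rfl⟩ := hs
    have hI := FF_int g b hg (2 * p' + 1) (2 * q' + 1) (2 * r' + 1) (2 * s' + 1)
    have hinv := inv_int f4 f4_inv _ hc
    have hf4c : Continuous f4 := LinearMap.continuous_of_finiteDimensional f4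
    have hI' : Integrable (fun y =>
        FF g b (2 * p' + 1) (2 * q' + 1) (2 * r' + 1) (2 * s' + 1) (f4 y)) := by
      have h6 := integrable_map_measure (μ := (volume : Measure (Fin 4 → ℝ))) (f := f4)
        (g := FF g b (2 * p' + 1) (2 * q' + 1) (2 * r' + 1) (2 * s' + 1))
        hc.aestronglyMeasurable hf4c.aemeasurable
      rw [inv_map f4 f4_inv] at h6
      exact h6.1 hI
    have h5 : 0 ≤ ∫ y, (FF g b (2 * p' + 1) (2 * q' + 1) (2 * r' + 1) (2 * s' + 1) y +
        FF g b (2 * p' + 1) (2 * q' + 1) (2 * r' + 1) (2 * s' + 1) (f4 y)) :=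
      integral_nonneg fun y => FF4 g b hg p' q' r' s' y
    rw [integral_add hI hI', hinv] at h5
    linarith

end Pool.Agent.H42.LD
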